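import Pool.Agent.helper79.JP.Defs
import Pool.Agent.helper12.OC.BB3e
import Pool.Agent.helper22.PD.Mertens

/-!
# Joint parity of partition numbers, module JE: real characters at primes
-/

set_option autoImplicit false

open Finset
open Pool.Agent.helper7.OC

namespace Pool.Agent.helper79.JP

/-- the symbol as a real character -/
theorem JE_rc (m : ℕ) (hm : m % 4 = 3) : RC m (fun n => J n m) := by
  have hm0 : m ≠ 0 := by omega
  have h1 : 1 < m := by omega
  refine bb3e_rc_of (by omega) _ ?_ ?_ ?_ ?_ ?_ (m - 1) ?_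
  · simp [J, jacobiSym.one_left]
  · intro a b
    simp only [J]
    push_cast
    rw [jacobiSym.mul_left]
    push_cast
    ring
  · intro n
    exact J_vals n m
  · intro n
    have hne : NeZero m := ⟨hm0⟩
    simp only [J]
    rw [ne_eq, Int.cast_eq_zero, jacobiSym.eq_zero_iff_not_coprime, not_not]
    rw [Int.gcd_natCast_natCast]
  · intro n
    simp only [J]
    congr 1
    have h2 : ((n % m : ℕ) : ℤ) % m = (n : ℤ) % m := by
      push_cast
      exact Int.emod_emod_of_dvd _ dvd_rfl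
    rw [jacobiSym.mod_left, h2, ← jacobiSym.mod_left]
  · simp only [J]
    have h2 : jacobiSym ((m - 1 : ℕ) : ℤ) m = jacobiSym (-1) m := by
      have h3 : ((m - 1 : ℕ) : ℤ) = -1 + m := by
        rw [Nat.cast_sub (by omega)]; push_cast; ring
      rw [h3, jacobiSym.mod_left, Int.add_emod_right, ← jacobiSym.mod_left]
    rw [h2, jacobiSym.at_neg_one (by rw [Nat.odd_iff]; omega),
      ZMod.χ₄_nat_three_mod_four hm]
    norm_num

/-- Abel summation for a bounded-sum sequence and an antitone weight -/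
theorem JE_abel (ψ g : ℕ → ℝ) (M : ℝ) (hM : ∀ x : ℕ, |∑ n ∈ range (x + 1), ψ n| ≤ M) (a : ℕ)
    (ha : 1 ≤ a) (hg0 : ∀ n, a ≤ n → 0 ≤ g n) (hg : ∀ n, a ≤ n → g (n + 1) ≤ g n) (b : ℕ)
    (hb : a + 1 ≤ b) : |∑ n ∈ Ico a b, ψ n * g n| ≤ 2 * M * g a := by
  have hM' : ∀ x : ℕ, 1 ≤ x → |∑ n ∈ range x, ψ n| ≤ M := by
    intro x hx
    obtain ⟨y, rfl⟩ := Nat.exists_eq_add_of_le' hx
    exact hM y
  have hM0 : 0 ≤ M := (abs_nonneg _).trans (hM 0)
  have key : |∑ n ∈ Ico a b, ψ n * g n - (∑ n ∈ range b, ψ n) * g (b - 1)|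
      ≤ M * g a + M * (g a - g (b - 1)) := by
    induction b, hb using Nat.le_induction with
    | base =>
      rw [Nat.Ico_succ_singleton, sum_singleton, Nat.add_sub_cancel, sum_range_succ]
      have h1 : ψ a * g a - (∑ n ∈ range a, ψ n + ψ a) * g a = -((∑ n ∈ range a, ψ n) * g a) := by
        ring
      rw [h1, abs_neg, abs_mul, abs_of_nonneg (hg0 a le_rfl), sub_self, mul_zero, add_zero]
      exact mul_le_mul_of_nonneg_right (hM' a ha) (hg0 a le_rfl)
    | succ b hb ih =>
      rw [sum_Ico_succ_top (by omega), Nat.add_sub_cancel]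
      have h1 : ∑ n ∈ Ico a b, ψ n * g n + ψ b * g b - (∑ n ∈ range (b + 1), ψ n) * g b =
          (∑ n ∈ Ico a b, ψ n * g n - (∑ n ∈ range b, ψ n) * g (b - 1)) +
            (∑ n ∈ range b, ψ n) * (g (b - 1) - g b) := by
        rw [sum_range_succ]; ring
      rw [h1]
      have h2 : 0 ≤ g (b - 1) - g b := by
        have := hg (b - 1) (by omega)
        rw [Nat.sub_add_cancel (by omega)] at this
        linarith
      refine (abs_add_le _ _).trans ?_
      rw [abs_mul, abs_of_nonneg h2]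
      have h3 := mul_le_mul_of_nonneg_right (hM' b (by omega)) h2
      linarith
  have h4 : |(∑ n ∈ range b, ψ n) * g (b - 1)| ≤ M * g (b - 1) := by
    rw [abs_mul, abs_of_nonneg (hg0 (b - 1) (by omega))]
    exact mul_le_mul_of_nonneg_right (hM' b (by omega)) (hg0 (b - 1) (by omega))
  calc |∑ n ∈ Ico a b, ψ n * g n| = |(∑ n ∈ Ico a b, ψ n * g n -
        (∑ n ∈ range b, ψ n) * g (b - 1)) + (∑ n ∈ range b, ψ n) * g (b - 1)| := by ring_nf
    _ ≤ _ := abs_add_le _ _
    _ ≤ (M * g a + M * (g a - g (b - 1))) + M * g (b - 1) := add_le_add key h4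
    _ = 2 * M * g a := by ring

/-- the weighted character as a monoid homomorphism -/
noncomputable def JE_f (m : ℕ) (hm : m % 4 = 3) (s : ℝ) (hs : 1 < s) : ℕ →*₀ ℝ where
  toFun n := J n m * (n : ℝ) ^ (-s)
  map_zero' := by
    rw [Nat.cast_zero, Real.zero_rpow (by linarith), mul_zero]
  map_one' := by
    have : J 1 m = 1 := (JE_rc m hm).one
    rw [this]; simp
  map_mul' a b := by
    have : J (a * b) m = J a m * J b m := (JE_rc m hm).mul a b
    rw [this, Nat.cast_mul, Real.mul_rpow (by positivity) (by positivity)]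
    ring

theorem JE_f_apply (m : ℕ) (hm : m % 4 = 3) (s : ℝ) (hs : 1 < s) (n : ℕ) :
    JE_f m hm s hs n = J n m * (n : ℝ) ^ (-s) := rfl

theorem JE_absJ (n m : ℕ) : |J n m| ≤ 1 := by
  rcases J_vals n m with h | h | h <;> rw [h] <;> norm_num

theorem JE_f_abs (m : ℕ) (hm : m % 4 = 3) (s : ℝ) (hs : 1 < s) (n : ℕ) :
    |JE_f m hm s hs n| ≤ (n : ℝ) ^ (-s) := by
  rw [JE_f_apply, abs_mul, abs_of_nonneg (Real.rpow_nonneg (Nat.cast_nonneg n) _)]
  have := mul_le_mul_of_nonneg_right (JE_absJ n m) (Real.rpow_nonneg (Nat.cast_nonneg n) (-s))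
  rwa [one_mul] at this

theorem JE_summable (m : ℕ) (hm : m % 4 = 3) (s : ℝ) (hs : 1 < s) :
    Summable fun n => ‖JE_f m hm s hs n‖ := by
  refine Summable.of_nonneg_of_le (fun n => norm_nonneg _) (fun n => ?_)
    (Real.summable_nat_rpow.2 (by linarith : -s < -1))
  rw [Real.norm_eq_abs]
  exact JE_f_abs m hm s hs n

/-- the value of the `L`-function is `O(log m)` -/
theorem JE_L (m : ℕ) (hm : m % 4 = 3) (s : ℝ) (hs : 1 < s) :
    ∑' n, JE_f m hm s hs n ≤ 3 + Real.log m := by
  have hm0 : 1 ≤ m := by omega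
  have hsum := (JE_summable m hm s hs).of_norm.hasSum.tendsto_sum_nat
  refine le_of_tendsto hsum ?_
  filter_upwards [Filter.eventually_ge_atTop (m + 2)] with N hN
  rw [range_eq_Ico, ← sum_Ico_consecutive _ (Nat.zero_le (m + 1)) (by omega : m + 1 ≤ N)]
  have h1 : ∑ n ∈ Ico 0 (m + 1), JE_f m hm s hs n ≤ 1 + Real.log m := by
    rw [sum_eq_sum_Ico_succ_bot (by omega), map_zero, zero_add, zero_add]
    calc ∑ n ∈ Ico 1 (m + 1), JE_f m hm s hs n ≤ ∑ n ∈ Ico 1 (m + 1), (n : ℝ)⁻¹ := by
          refine sum_le_sum fun n hn => ?_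
          rw [mem_Ico] at hn
          have hn1 : (1 : ℝ) ≤ n := by exact_mod_cast hn.1
          refine (le_abs_self _).trans ((JE_f_abs m hm s hs n).trans ?_)
          rw [← Real.rpow_neg_one]
          exact Real.rpow_le_rpow_of_exponent_le hn1 (by linarith)
      _ = (harmonic m : ℝ) := by
          rw [harmonic_eq_sum_Icc]
          push_cast
          rfl
      _ ≤ 1 + Real.log m := harmonic_le_one_add_log m
  have h2 : ∑ n ∈ Ico (m + 1) N, JE_f m hm s hs n ≤ 2 := by
    have h3 := JE_abel (fun n => J n m) (fun n => (n : ℝ) ^ (-s)) m (JE_rc m hm).sum (m + 1)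
      (by omega) (fun n _ => Real.rpow_nonneg (Nat.cast_nonneg n) _) (fun n hn => by
        have hn0 : (0 : ℝ) < n := by exact_mod_cast (by omega : 0 < n)
        rw [Real.rpow_neg (by positivity), Real.rpow_neg (by positivity)]
        refine inv_anti₀ (Real.rpow_pos_of_pos hn0 _) (Real.rpow_le_rpow hn0.le ?_ (by linarith))
        push_cast; linarith) N (by omega)
    refine (le_abs_self _).trans (h3.trans ?_)
    have hm1 : (1 : ℝ) ≤ ((m + 1 : ℕ) : ℝ) := by exact_mod_cast (by omega : 1 ≤ m + 1)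
    have h4 : ((m + 1 : ℕ) : ℝ) ^ (-s) ≤ ((m + 1 : ℕ) : ℝ)⁻¹ := by
      rw [← Real.rpow_neg_one]
      exact Real.rpow_le_rpow_of_exponent_le hm1 (by linarith)
    have hm2 : (0 : ℝ) ≤ m := Nat.cast_nonneg m
    calc 2 * (m : ℝ) * ((m + 1 : ℕ) : ℝ) ^ (-s) ≤ 2 * (m : ℝ) * ((m + 1 : ℕ) : ℝ)⁻¹ :=
          mul_le_mul_of_nonneg_left h4 (by positivity)
      _ ≤ 2 := by
          rw [mul_inv_le_iff₀ (by positivity)]
          push_cast; linarith
  linarith

/-- products over primes dominate exponentials of sums -/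
theorem JE_prod (m : ℕ) (hm : m % 4 = 3) (s : ℝ) (hs : 1 < s) (N : ℕ) :
    Real.exp (∑ p ∈ N.primesBelow, JE_f m hm s hs p) ≤
      ∏ p ∈ N.primesBelow, (1 - JE_f m hm s hs p)⁻¹ := by
  rw [Real.exp_sum]
  refine prod_le_prod (fun p _ => (Real.exp_pos _).le) fun p hp => ?_
  have hp2 := (Nat.prime_of_mem_primesBelow hp).two_le
  have h1 : |JE_f m hm s hs p| < 1 := by
    refine (JE_f_abs m hm s hs p).trans_lt ?_
    refine Real.rpow_lt_one_of_one_lt_of_neg (by exact_mod_cast (by omega : 1 < p)) (by linarith)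
  have h2 := (abs_lt.1 h1).2
  rw [← inv_inv (Real.exp _), ← Real.exp_neg]
  refine inv_anti₀ (by linarith) ?_
  have := Real.add_one_le_exp (-(JE_f m hm s hs p))
  linarith

/-! ## Mertens type estimates -/

theorem JE_log4 : Real.log 4 ≤ 2 := by
  have h5 : (4 : ℝ) ≤ Real.exp 2 := by
    have := Real.exp_one_gt_d9
    have h6 : Real.exp 2 = Real.exp 1 * Real.exp 1 := by rw [← Real.exp_add]; norm_num
    rw [h6]; nlinarith
  calc Real.log 4 ≤ Real.log (Real.exp 2) := Real.log_le_log (by norm_num) h5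
    _ = 2 := Real.log_exp 2

/-- `∑ log p / p` over `p ≤ x` -/
theorem JE_mert (x : ℕ) (hx : 1 ≤ x) :
    ∑ p ∈ PA 0 x, Real.log p / p ≤ Real.log x + 6 := by
  have h1 := Pool.Agent.helper22.PD.sum_vonMangoldt_div x hx
  have h2 : ∑ p ∈ PA 0 x, Real.log p / p ≤
      ∑ d ∈ Icc 1 x, ArithmeticFunction.vonMangoldt d / d := by
    rw [PA]
    have h3 : ∑ p ∈ (Ioc 0 x).filter Nat.Prime, Real.log p / p =
        ∑ p ∈ (Ioc 0 x).filter Nat.Prime, ArithmeticFunction.vonMangoldt p / (p : ℝ) := by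
      refine sum_congr rfl fun p hp => ?_
      rw [ArithmeticFunction.vonMangoldt_apply_prime (mem_filter.1 hp).2]
    rw [h3]
    refine sum_le_sum_of_subset_of_nonneg (fun p hp => ?_) fun p _ _ =>
      div_nonneg ArithmeticFunction.vonMangoldt_nonneg (Nat.cast_nonneg p)
    rw [mem_filter, mem_Ioc] at hp
    rw [mem_Icc]; omega
  have := JE_log4
  linarith

/-- `∑ log p / p` over a dyadic block -/
theorem JE_block (y : ℕ) (hy : 1 ≤ y) :
    ∑ p ∈ PA y (2 * y), Real.log p / p ≤ 8 := by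
  have h1 := Pool.Agent.helper22.PD.sum_vonMangoldt_div (2 * y) (by omega)
  have h2 := Pool.Agent.helper22.PD.sum_vonMangoldt_div_ge y hy
  have e1 : ∑ d ∈ Icc 1 (2 * y), ArithmeticFunction.vonMangoldt d / (d : ℝ) =
      ∑ d ∈ Icc 1 y, ArithmeticFunction.vonMangoldt d / (d : ℝ) +
        ∑ d ∈ Ioc y (2 * y), ArithmeticFunction.vonMangoldt d / (d : ℝ) := by
    rw [← sum_union]
    · congr 1
      ext d
      rw [mem_union, mem_Icc, mem_Icc, mem_Ioc]
      omega
    · rw [disjoint_left]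
      intro d hd hd'
      rw [mem_Icc] at hd
      rw [mem_Ioc] at hd'
      omega
  have e2 : ∑ p ∈ PA y (2 * y), Real.log p / p ≤
      ∑ d ∈ Ioc y (2 * y), ArithmeticFunction.vonMangoldt d / (d : ℝ) := by
    rw [PA]
    have h3 : ∑ p ∈ (Ioc y (2 * y)).filter Nat.Prime, Real.log p / p =
        ∑ p ∈ (Ioc y (2 * y)).filter Nat.Prime, ArithmeticFunction.vonMangoldt p / (p : ℝ) := by
      refine sum_congr rfl fun p hp => ?_
      rw [ArithmeticFunction.vonMangoldt_apply_prime (mem_filter.1 hp).2]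
    rw [h3]
    exact sum_le_sum_of_subset_of_nonneg (filter_subset _ _) fun p _ _ =>
      div_nonneg ArithmeticFunction.vonMangoldt_nonneg (Nat.cast_nonneg p)
  have hy0 : (0 : ℝ) < y := by exact_mod_cast (by omega : 0 < y)
  have e3 : Real.log ((2 * y : ℕ) : ℝ) = Real.log 2 + Real.log y := by
    push_cast
    rw [Real.log_mul (by norm_num) hy0.ne']
  have h4 := JE_log4
  have h5 := Real.log_two_lt_d9
  rw [e3] at h1
  linarith

/-- the exponent `1 + 1 / log x` -/
theorem JE_head (x : ℕ) (hx : 2 ≤ x) :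
    ∑ p ∈ PA 0 x, (1 / (p : ℝ) - (p : ℝ) ^ (-(1 + 1 / Real.log x))) ≤ 10 := by
  have hx0 : (1 : ℝ) < x := by exact_mod_cast (by omega : 1 < x)
  have hl : 0 < Real.log x := Real.log_pos hx0
  have hl2 : Real.log 2 ≤ Real.log x := Real.log_le_log (by norm_num) (by exact_mod_cast hx)
  have h2 := Real.log_two_gt_d9
  have h1 : ∑ p ∈ PA 0 x, (1 / (p : ℝ) - (p : ℝ) ^ (-(1 + 1 / Real.log x))) ≤
      ∑ p ∈ PA 0 x, (Real.log p / p) * (1 / Real.log x) := by
    refine sum_le_sum fun p hp => ?_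
    rw [PA, mem_filter, mem_Ioc] at hp
    have hp0 : (0 : ℝ) < p := by exact_mod_cast hp.1.1
    have e1 : (p : ℝ) ^ (-(1 + 1 / Real.log x)) =
        1 / (p : ℝ) * Real.exp (-(Real.log p / Real.log x)) := by
      rw [neg_add, Real.rpow_add hp0, Real.rpow_neg_one, one_div (p : ℝ),
        Real.rpow_def_of_pos hp0]
      congr 2
      ring
    have e2 := Real.add_one_le_exp (-(Real.log p / Real.log x))
    rw [e1]
    have e3 : 1 / (p : ℝ) - 1 / (p : ℝ) * Real.exp (-(Real.log p / Real.log x)) =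
        1 / (p : ℝ) * (1 - Real.exp (-(Real.log p / Real.log x))) := by ring
    have e4 : Real.log p / p * (1 / Real.log x) = 1 / (p : ℝ) * (Real.log p / Real.log x) := by
      ring
    rw [e3, e4]
    exact mul_le_mul_of_nonneg_left (by linarith) (by positivity)
  refine h1.trans ?_
  rw [← sum_mul, mul_one_div, div_le_iff₀ hl]
  have h3 := JE_mert x (by omega)
  nlinarith

/-- the tail of the prime sum -/
theorem JE_tail (x : ℕ) (hx : 2 ≤ x) (K : ℕ) :
    ∑ p ∈ PA x (2 ^ K * x), (p : ℝ) ^ (-(1 + 1 / Real.log x)) ≤ 24 := by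
  have hx0 : (1 : ℝ) < x := by exact_mod_cast (by omega : 1 < x)
  have hl : 0 < Real.log x := Real.log_pos hx0
  have hl2 : Real.log 2 ≤ Real.log x := Real.log_le_log (by norm_num) (by exact_mod_cast hx)
  have h2 := Real.log_two_gt_d9
  have h2' := Real.log_two_lt_d9
  set ρ : ℝ := (2 : ℝ) ^ (-(1 / Real.log x)) with hρ
  have hρ0 : 0 < ρ := Real.rpow_pos_of_pos (by norm_num) _
  have hρ1 : 1 - ρ ≥ (1 / 3) * (1 / Real.log x) := by
    have e1 : ρ = Real.exp (-(Real.log 2 / Real.log x)) := by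
      rw [hρ, Real.rpow_def_of_pos (by norm_num)]
      congr 1
      ring
    set y := Real.log 2 / Real.log x with hy
    have hy0 : 0 < y := by positivity
    have hy1 : y ≤ 1 := by rw [hy, div_le_one hl]; exact hl2
    have e2 : Real.exp (-y) ≤ 1 / (1 + y) := by
      rw [Real.exp_neg, ← one_div]
      refine one_div_le_one_div_of_le (by linarith) ?_
      have := Real.add_one_le_exp y
      linarith
    have e3 : 1 / (1 + y) ≤ 1 - y / 2 := by
      rw [div_le_iff₀ (by linarith)]
      nlinarith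
    have e4 : (1 / 3) * (1 / Real.log x) ≤ y / 2 := by
      have : y / 2 = (Real.log 2 / 2) * (1 / Real.log x) := by rw [hy]; ring
      rw [this]
      exact mul_le_mul_of_nonneg_right (by linarith) (by positivity)
    rw [e1]
    linarith
  have key : ∀ K : ℕ, ∑ p ∈ PA x (2 ^ K * x), (p : ℝ) ^ (-(1 + 1 / Real.log x)) ≤
      ∑ k ∈ range K, 8 * (1 / Real.log x) * ρ ^ k := by
    intro K
    induction K with
    | zero => simp [PA]
    | succ K ih =>
      rw [sum_range_succ]
      have hxK : x ≤ 2 ^ K * x := Nat.le_mul_of_pos_left x (by positivity)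
      have e1 : PA x (2 ^ (K + 1) * x) = PA x (2 ^ K * x) ∪ PA (2 ^ K * x) (2 * (2 ^ K * x)) := by
        ext p
        simp only [PA, mem_union, mem_filter, mem_Ioc]
        rw [pow_succ]
        constructor
        · rintro ⟨⟨h1, h2⟩, h3⟩
          by_cases h4 : p ≤ 2 ^ K * x
          · exact Or.inl ⟨⟨h1, h4⟩, h3⟩
          · exact Or.inr ⟨⟨by omega, by linarith⟩, h3⟩
        · rintro (⟨⟨h1, h2⟩, h3⟩ | ⟨⟨h1, h2⟩, h3⟩)
          · exact ⟨⟨h1, by nlinarith⟩, h3⟩
          · exact ⟨⟨by omega, by linarith⟩, h3⟩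
      have e2 : Disjoint (PA x (2 ^ K * x)) (PA (2 ^ K * x) (2 * (2 ^ K * x))) := by
        rw [disjoint_left]
        intro p hp hp'
        simp only [PA, mem_filter, mem_Ioc] at hp hp'
        omega
      rw [e1, sum_union e2]
      refine add_le_add ih ?_
      have hy1 : 1 ≤ 2 ^ K * x := Nat.mul_pos (by positivity) (by omega)
      calc ∑ p ∈ PA (2 ^ K * x) (2 * (2 ^ K * x)), (p : ℝ) ^ (-(1 + 1 / Real.log x))
          ≤ ∑ p ∈ PA (2 ^ K * x) (2 * (2 ^ K * x)), (Real.log p / p) *
              ((1 / Real.log x) * ρ ^ K) := by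
            refine sum_le_sum fun p hp => ?_
            rw [PA, mem_filter, mem_Ioc] at hp
            have hpx : x ≤ p := by omega
            have hp0 : (0 : ℝ) < p := by exact_mod_cast (by omega : 0 < p)
            have hlp : Real.log x ≤ Real.log p :=
              Real.log_le_log (by linarith) (by exact_mod_cast hpx)
            have f1 : (p : ℝ) ^ (-(1 / Real.log x)) ≤ ρ ^ K := by
              have g1 : ((2 : ℝ) ^ K) ≤ p := by
                have : 2 ^ K ≤ p := by
                  have : 2 ^ K * 1 ≤ 2 ^ K * x := Nat.mul_le_mul_left _ (by omega)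
                  omega
                exact_mod_cast this
              rw [hρ, ← Real.rpow_natCast, ← Real.rpow_mul (by norm_num),
                mul_comm (-(1 / Real.log x)), Real.rpow_mul (by norm_num), Real.rpow_natCast]
              exact Real.rpow_le_rpow_of_nonpos (by positivity) g1
                (by rw [neg_nonpos]; positivity)
            have f2 : (1 : ℝ) ≤ Real.log p * (1 / Real.log x) := by
              rw [mul_one_div, le_div_iff₀ hl]; linarith
            rw [neg_add, Real.rpow_add hp0, Real.rpow_neg_one]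
            have f3 : Real.log p / p * (1 / Real.log x * ρ ^ K) =
                (p : ℝ)⁻¹ * ((Real.log p * (1 / Real.log x)) * ρ ^ K) := by
              rw [div_eq_mul_inv]; ring
            rw [f3]
            refine mul_le_mul_of_nonneg_left ?_ (by positivity)
            calc (p : ℝ) ^ (-(1 / Real.log x)) ≤ ρ ^ K := f1
              _ = 1 * ρ ^ K := (one_mul _).symm
              _ ≤ _ := mul_le_mul_of_nonneg_right f2 (by positivity)
        _ = (∑ p ∈ PA (2 ^ K * x) (2 * (2 ^ K * x)), Real.log p / p) *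
              ((1 / Real.log x) * ρ ^ K) := by rw [sum_mul]
        _ ≤ 8 * ((1 / Real.log x) * ρ ^ K) :=
            mul_le_mul_of_nonneg_right (JE_block _ hy1) (by positivity)
        _ = _ := by ring
  refine (key K).trans ?_
  rw [← mul_sum]
  have hgeo : (∑ k ∈ range K, ρ ^ k) * (1 - ρ) ≤ 1 := by
    have := geom_sum_mul_neg ρ K
    rw [this]
    have : 0 < ρ ^ K := by positivity
    linarith
  have hS : 0 ≤ ∑ k ∈ range K, ρ ^ k := sum_nonneg fun k _ => by positivity
  have h3 : (∑ k ∈ range K, ρ ^ k) * ((1 / 3) * (1 / Real.log x)) ≤ 1 :=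
    (mul_le_mul_of_nonneg_left hρ1 hS).trans hgeo
  nlinarith

/-! ## The theorem -/

theorem char_ub : ∃ C : ℝ, ∀ m : ℕ, Squarefree m → m % 4 = 3 → ∀ x : ℕ, 2 ≤ x →
    cs (PA 0 x) m ≤ Real.log (Real.log m) + C := by
  refine ⟨34 + 2, fun m _ hm x hx => ?_⟩
  have hx0 : (1 : ℝ) < x := by exact_mod_cast (by omega : 1 < x)
  have hl : 0 < Real.log x := Real.log_pos hx0
  set s : ℝ := 1 + 1 / Real.log x with hs
  have hs1 : 1 < s := by rw [hs]; have : 0 < 1 / Real.log x := by positivity
                         linarith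
  have hlim := EulerProduct.eulerProduct_completely_multiplicative (JE_summable m hm s hs1)
  have hL := JE_L m hm s hs1
  -- lower bound for the sums
  have hlow : ∀ K : ℕ, cs (PA 0 x) m - 34 ≤
      ∑ p ∈ (2 ^ K * x + 1).primesBelow, JE_f m hm s hs1 p := by
    intro K
    have hxK : x ≤ 2 ^ K * x := Nat.le_mul_of_pos_left x (by positivity)
    have e1 : (2 ^ K * x + 1).primesBelow = PA 0 x ∪ PA x (2 ^ K * x) := by
      ext p
      simp only [PA, mem_union, mem_filter, mem_Ioc, Nat.mem_primesBelow]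
      constructor
      · rintro ⟨h1, h2⟩
        have := h2.pos
        by_cases h4 : p ≤ x
        · exact Or.inl ⟨⟨this, h4⟩, h2⟩
        · exact Or.inr ⟨⟨by omega, by omega⟩, h2⟩
      · rintro (⟨⟨h1, h2⟩, h3⟩ | ⟨⟨h1, h2⟩, h3⟩)
        · exact ⟨by omega, h3⟩
        · exact ⟨by omega, h3⟩
    have e2 : Disjoint (PA 0 x) (PA x (2 ^ K * x)) := by
      rw [disjoint_left]
      intro p hp hp'
      simp only [PA, mem_filter, mem_Ioc] at hp hp'
      omega
    rw [e1, sum_union e2]
    have h1 : cs (PA 0 x) m - 10 ≤ ∑ p ∈ PA 0 x, JE_f m hm s hs1 p := by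
      have h2 : cs (PA 0 x) m - ∑ p ∈ PA 0 x, JE_f m hm s hs1 p ≤
          ∑ p ∈ PA 0 x, (1 / (p : ℝ) - (p : ℝ) ^ (-(1 + 1 / Real.log x))) := by
        rw [cs, ← sum_sub_distrib]
        refine sum_le_sum fun p hp => ?_
        rw [PA, mem_filter, mem_Ioc] at hp
        have hp1 : (1 : ℝ) ≤ p := by exact_mod_cast hp.1.1
        rw [JE_f_apply]
        have h3 : (p : ℝ) ^ (-s) ≤ 1 / (p : ℝ) := by
          rw [one_div, ← Real.rpow_neg_one]
          exact Real.rpow_le_rpow_of_exponent_le hp1 (by linarith)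
        have h4 : J p m / p - J p m * (p : ℝ) ^ (-s) = J p m * (1 / (p : ℝ) - (p : ℝ) ^ (-s)) := by
          ring
        rw [h4]
        have h5 := (abs_le.1 (JE_absJ p m)).2
        calc _ ≤ 1 * (1 / (p : ℝ) - (p : ℝ) ^ (-s)) :=
              mul_le_mul_of_nonneg_right h5 (by linarith)
          _ = _ := one_mul _
      have := JE_head x hx
      linarith
    have h2 : -24 ≤ ∑ p ∈ PA x (2 ^ K * x), JE_f m hm s hs1 p := by
      have h3 : -∑ p ∈ PA x (2 ^ K * x), (p : ℝ) ^ (-(1 + 1 / Real.log x)) ≤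
          ∑ p ∈ PA x (2 ^ K * x), JE_f m hm s hs1 p := by
        rw [← sum_neg_distrib]
        exact sum_le_sum fun p _ => (abs_le.1 (JE_f_abs m hm s hs1 p)).1
      have := JE_tail x hx K
      linarith
    linarith
  have hmain : Real.exp (cs (PA 0 x) m - 34) ≤ 3 + Real.log m := by
    refine le_trans ?_ hL
    have htop : Filter.Tendsto (fun K : ℕ => 2 ^ K * x + 1) Filter.atTop Filter.atTop := by
      refine Filter.tendsto_atTop_mono (fun K => ?_) Filter.tendsto_id
      have h1 : K < 2 ^ K := Nat.lt_two_pow_self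
      have h2 : 2 ^ K * 1 ≤ 2 ^ K * x := Nat.mul_le_mul_left _ (by omega)
      simp only [id]
      omega
    refine ge_of_tendsto' (hlim.comp htop) fun K => ?_
    exact (Real.exp_le_exp.2 (hlow K)).trans (JE_prod m hm s hs1 _)
  have hm3 : 3 ≤ m := by omega
  have hlm : 1 ≤ Real.log m := by
    have h1 : Real.exp 1 ≤ 3 := by have := Real.exp_one_lt_d9; linarith
    calc (1 : ℝ) = Real.log (Real.exp 1) := (Real.log_exp 1).symm
      _ ≤ Real.log m := Real.log_le_log (Real.exp_pos 1) (h1.trans (by exact_mod_cast hm3))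
  have h4 : Real.exp (cs (PA 0 x) m - 34) ≤ 4 * Real.log m := by linarith
  have h5 := Real.log_le_log (Real.exp_pos _) h4
  rw [Real.log_exp, Real.log_mul (by norm_num) (by linarith)] at h5
  have := JE_log4
  linarith

end Pool.Agent.helper79.JP
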